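import Pool.Agent.Q205.WV.Stm

/-!
# Project WV (helper205): NPN, the normalized theorem from its parts
-/

set_option autoImplicit false

namespace Pool.Agent.Q205.WV.Npn

open MeasureTheory Filter Pool.Agent.W792.LL Pool.Agent.W792.WA Pool.Agent.Q205.WV
open scoped Topology

noncomputable section

theorem MestK_congr {d : ℕ} {K : C(UnitAddTorus (Fin d), ℝ)} {ν ν' : Measure ℝ}
    [IsProbabilityMeasure ν] [IsProbabilityMeasure ν'] (h : ν = ν') (hM : MestK K ν) :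
    MestK K ν' := by
  subst h
  exact hM

/-- the `p`-th power of a sum -/
theorem pow_le {a b p : ℝ} (ha : 0 ≤ a) (hb : 0 ≤ b) (hp1 : 1 < p) (hp2 : p < 2) :
    (a + b) ^ p ≤ 2 * (a ^ p + b ^ p) := by
  have h1 : (a + b) ^ p ≤ 2 ^ (p - 1) * (a ^ p + b ^ p) := by
    have h := NNReal.rpow_add_le_mul_rpow_add_rpow ⟨a, ha⟩ ⟨b, hb⟩ hp1.le
    exact_mod_cast h
  have h2 : (2 : ℝ) ^ (p - 1) ≤ 2 := by
    calc (2 : ℝ) ^ (p - 1) ≤ 2 ^ (1 : ℝ) :=
          Real.rpow_le_rpow_of_exponent_le (by norm_num) (by linarith)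
      _ = 2 := Real.rpow_one 2
  have h3 : 0 ≤ a ^ p + b ^ p := by positivity
  exact h1.trans (mul_le_mul_of_nonneg_right h2 h3)

theorem tor_prob (d : ℕ) : IsProbabilityMeasure (volume : Measure (UnitAddTorus (Fin d))) := by
  have : IsProbabilityMeasure (volume : Measure UnitAddCircle) := ⟨by simp⟩
  exact inferInstanceAs
    (IsProbabilityMeasure (Measure.pi fun _ : Fin d => (volume : Measure UnitAddCircle)))

theorem tsum_l (t : ℝ) (n : ℕ) : ∑' j : ℕ, t * (1 / 2) ^ (n + j + 1) = t * (1 / 2) ^ n := by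
  have h : ∀ j : ℕ, t * (1 / 2 : ℝ) ^ (n + j + 1) = (t * (1 / 2) ^ (n + 1)) * (1 / 2) ^ j := by
    intro j; ring
  simp_rw [h]
  rw [tsum_mul_left, tsum_geometric_two]
  ring

theorem main : J_NPN := by
  intro hG hS hA hE hC hU hSe hF hN hQ hAE d K p κ ε hd hp1 hp2 hκ hε
  obtain ⟨D, hD⟩ : ∃ D, D = ‖K‖ + 4 * d + 1 := ⟨_, rfl⟩
  have hκ' : 0 < min κ 1 := lt_min hκ one_pos
  obtain ⟨ψ₀, R, η, hψ₀, hR, hη, hmom, hgap⟩ :=
    hG p (min κ 1) D (ε / 8) hp1 hp2 hκ' (min_le_right _ _) (by positivity)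
  obtain ⟨ψ, hψ⟩ := hSe
  have hψL : IsLv ψ := ⟨hψ.bound, hψ.atom⟩
  obtain ⟨t, ht⟩ : ∃ t, t = min 1 (ε / 8) := ⟨_, rfl⟩
  have ht0 : 0 < t := by rw [ht]; exact lt_min one_pos (by positivity)
  have ht1 : t ≤ 1 := by rw [ht]; exact min_le_left _ _
  have ht2 : t ≤ ε / 8 := by rw [ht]; exact min_le_right _ _
  have hlpos : ∀ n : ℕ, 0 < t * (1 / 2) ^ (n + 1) := fun n => by positivity
  have hsum : Summable fun n : ℕ => t * (1 / 2 : ℝ) ^ (n + 1) := by
    have h : Summable fun n : ℕ => ((1 : ℝ) / 2) ^ n := summable_geometric_two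
    exact (((summable_nat_add_iff 1).mpr h).mul_left t)
  obtain ⟨ρ, h1, h2, h3, h4⟩ := hF ψ hψ (fun n => t * (1 / 2) ^ (n + 1)) hlpos hsum
  have h3' : ∀ n, ρ n (Set.Icc (-(t * (1 / 2) ^ n)) (t * (1 / 2) ^ n))ᶜ = 0 := by
    intro n
    have := h3 n
    rw [tsum_l t n] at this
    exact this
  obtain ⟨𝓧, h𝓧⟩ : ∃ 𝓧 : Set MX, 𝓧 = {X | X ∈ Qf ∧ min κ 1 ≤ vr (qlaw X)} := ⟨_, rfl⟩
  have hTB : TB 𝓧 := by
    intro τ hτ
    obtain ⟨F, hF1, hF2⟩ := hN τ hτ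
    refine ⟨F, hF1, fun X hX => hF2 X ?_⟩
    rw [h𝓧] at hX
    exact hX.1
  have hvr : ∀ X ∈ 𝓧, 0 < vr (qlaw X) := by
    intro X hX
    rw [h𝓧] at hX
    exact hκ'.trans_le hX.2
  have i0 := h1 0
  have hρ0 : ρ 0 (Set.Icc (-t) t)ᶜ = 0 := by simpa using h3' 0
  have hρ1 : ρ 0 (Set.Icc (-1) 1)ᶜ = 0 := by
    refine measure_mono_null (Set.compl_subset_compl.mpr (Set.Icc_subset_Icc ?_ ht1)) hρ0
    linarith
  obtain ⟨ia, hsupp, hatom⟩ := hA ψ₀ R t (ρ 0) hψ₀ hR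
  have hgap0 : ∀ X ∈ 𝓧, ∀ z ∈ Zs d, ∀ s, IsFix (qlaw X) ((lev ψ₀ R).conv (ρ 0)) (wz K z) s →
      ‖s‖ ≤ 1 - η := by
    intro X hX z hz s hs
    rw [h𝓧] at hX
    refine hgap (qlaw X) d K z (ρ 0) hX.2 hρ1 ?_ hz.2.2.1 s hs
    obtain ⟨z1, z2, z3, z4⟩ := hz
    have hzn := Complex.norm_le_abs_re_add_abs_im z
    rw [abs_of_nonneg z1, abs_of_pos z3] at hzn
    rw [hD]
    linarith
  obtain ⟨M₁, hM₁⟩ := hS d ψ₀ (ρ 0) t η R K 𝓧 hd hψ₀ hvr hTB hρ0 (h4 0) hR hη hgap0 (η / 2)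
    (half_pos hη)
  have hcp : Continuous fun x : UnitAddCircle => |R * ψ₀ x| ^ p :=
    ((continuous_const.mul ψ₀.continuous).abs).rpow_const fun _ => Or.inr (by linarith)
  obtain ⟨M₂, hM₂⟩ := hE d ⟨fun x => |R * ψ₀ x| ^ p, hcp⟩ hd (ε / 8) (by positivity)
  obtain ⟨M, hM⟩ : ∃ M, M = max M₁ M₂ := ⟨_, rfl⟩
  have hMa := hM₁ M (by rw [hM]; exact le_max_left _ _)
  have hMb := hM₂ M (by rw [hM]; exact le_max_right _ _)
  have hgap1 : ∀ X ∈ 𝓧, ∀ z ∈ Zs d, ∀ s, IsFix (qlaw X) (ρ 0) (wz (addL ψ₀ K R M) z) s →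
      ‖s‖ ≤ 1 - η / 2 := by
    intro X hX z hz s' hs'
    have i1 : IsProbabilityMeasure ((lev ψ₀ R).conv (ρ 0)) := inferInstance
    obtain ⟨q, -, -, hq⟩ := (hU d ((lev ψ₀ R).conv (ρ 0)) (t + R) η K (hsupp hρ0) hatom hη).1
    obtain ⟨s, hs, -⟩ := (hq (qlaw X) (hvr X hX) (hgap0 X hX)).1 z hz
    have e1 := (hMa X hX z hz s s' hs hs').1
    have e2 := hgap0 X hX z hz s hs
    have e3 : ‖s'‖ ≤ ‖s‖ + ‖s - s'‖ := by
      have := norm_sub_le s (s - s')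
      rwa [sub_sub_cancel] at this
    linarith
  obtain ⟨f, hf, hMe⟩ := hC d ψ (addL ψ₀ K R M) 𝓧 (η / 2) (fun n => t * (1 / 2) ^ (n + 1))
    (fun n => t * (1 / 2) ^ n) ρ hd hψL hvr hTB hlpos (fun n => by positivity)
    (fun n => by
      have e : t * (1 / 2 : ℝ) ^ (n + 1) + t * (1 / 2) ^ (n + 1) = t * (1 / 2) ^ n := by ring
      exact e.le)
    (by
      have := tendsto_pow_atTop_nhds_zero_of_lt_one (r := (1 / 2 : ℝ)) (by norm_num) (by norm_num)
      simpa using this.const_mul t)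
    h1 h2 h3' h4 (half_pos hη) hgap1
  have hf' : ∀ x, |f x| ≤ t := fun x => by simpa using hf x
  have hgc : Continuous fun x : ℝ => R * ψ₀ ((M * x / (2 * Real.pi) : ℝ) : UnitAddCircle) + f x := by
    have h : Continuous fun x : ℝ => ((M * x / (2 * Real.pi) : ℝ) : UnitAddCircle) :=
      (AddCircle.continuous_mk' (1 : ℝ)).comp (by fun_prop)
    exact (continuous_const.mul (ψ₀.continuous.comp h)).add f.continuous
  have hKe : K + gK ⟨_, hgc⟩ d = addL ψ₀ K R M + gK f d := by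
    ext k
    change K k + (R * ψ₀ _ + f (lap d k)) = K k + R * ψ₀ _ + f (lap d k)
    ring
  refine ⟨⟨_, hgc⟩, ⟨R + t, fun x => ?_⟩, ?_, ?_⟩
  · change |R * ψ₀ _ + f x| ≤ _
    refine (abs_add_le _ _).trans (add_le_add ?_ (hf' x))
    rw [abs_mul, abs_of_pos hR]
    exact mul_le_of_le_one_right hR.le (hψ₀.bound _)
  · have hcl : Continuous fun k : UnitAddTorus (Fin d) =>
        ((M * lap d k / (2 * Real.pi) : ℝ) : UnitAddCircle) :=
      (AddCircle.continuous_mk' (1 : ℝ)).comp (by fun_prop)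
    have hi1 : Integrable (fun k : UnitAddTorus (Fin d) =>
        |R * ψ₀ ((M * lap d k / (2 * Real.pi) : ℝ) : UnitAddCircle)| ^ p) volume :=
      (hcp.comp hcl).integrable_of_hasCompactSupport (HasCompactSupport.of_compactSpace _)
    have hi2 : Integrable (fun k : UnitAddTorus (Fin d) =>
        |(R * ψ₀ ((M * lap d k / (2 * Real.pi) : ℝ) : UnitAddCircle) + f (lap d k))| ^ p)
        volume := by
      refine Continuous.integrable_of_hasCompactSupport ?_ (HasCompactSupport.of_compactSpace _)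
      exact (((continuous_const.mul (ψ₀.continuous.comp hcl)).add
        (f.continuous.comp (lap d).continuous)).abs).rpow_const fun _ => Or.inr (by linarith)
    have hb : ∀ k : UnitAddTorus (Fin d),
        |(R * ψ₀ ((M * lap d k / (2 * Real.pi) : ℝ) : UnitAddCircle) + f (lap d k))| ^ p ≤
          2 * (|R * ψ₀ ((M * lap d k / (2 * Real.pi) : ℝ) : UnitAddCircle)| ^ p + ε / 8) := by
      intro k
      have e1 : |(R * ψ₀ ((M * lap d k / (2 * Real.pi) : ℝ) : UnitAddCircle) + f (lap d k))| ≤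
          |R * ψ₀ ((M * lap d k / (2 * Real.pi) : ℝ) : UnitAddCircle)| + t :=
        (abs_add_le _ _).trans (add_le_add le_rfl (hf' _))
      have e2 := Real.rpow_le_rpow (abs_nonneg _) e1 (by linarith : 0 ≤ p)
      have e3 := pow_le (abs_nonneg (R * ψ₀ ((M * lap d k / (2 * Real.pi) : ℝ) : UnitAddCircle)))
        ht0.le hp1 hp2
      have e4 : t ^ p ≤ ε / 8 := by
        calc t ^ p ≤ t ^ (1 : ℝ) := Real.rpow_le_rpow_of_exponent_ge ht0 ht1 hp1.le
          _ = t := Real.rpow_one t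
          _ ≤ ε / 8 := ht2
      linarith
    have hmean := integral_mono hi2 ((hi1.add (integrable_const (ε / 8))).const_mul 2) hb
    have e8 : ∫ k : UnitAddTorus (Fin d),
        2 * (|R * ψ₀ ((M * lap d k / (2 * Real.pi) : ℝ) : UnitAddCircle)| ^ p + ε / 8) =
        2 * ((∫ k : UnitAddTorus (Fin d),
          |R * ψ₀ ((M * lap d k / (2 * Real.pi) : ℝ) : UnitAddCircle)| ^ p) + ε / 8) := by
      rw [integral_const_mul, integral_add hi1 (integrable_const _), integral_const]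
      have := tor_prob d
      simp
    have hmean' := hmean.trans (le_of_eq e8)
    have hMb' := (abs_le.mp hMb).2
    have e5 : (∫ k : UnitAddTorus (Fin d), |R * ψ₀ ((M * lap d k / (2 * Real.pi) : ℝ) : UnitAddCircle)| ^ p)
        - ∫ φ in Set.Ioc (0 : ℝ) 1, |R * ψ₀ (φ : UnitAddCircle)| ^ p ≤ ε / 8 := hMb'
    have e7 : ∫ k : UnitAddTorus (Fin d), |(⟨_, hgc⟩ : C(ℝ, ℝ)) (lap d k)| ^ p =
        ∫ k : UnitAddTorus (Fin d),
          |(R * ψ₀ ((M * lap d k / (2 * Real.pi) : ℝ) : UnitAddCircle) + f (lap d k))| ^ p := rfl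
    rw [e7]
    linarith
  · intro ν _ hν
    obtain ⟨X, hX, hXν⟩ := hQ ν
    have hX𝓧 : X ∈ 𝓧 := by
      rw [h𝓧]
      refine ⟨hX, ?_⟩
      have : vr (qlaw X) = vr ν := by rw [hXν]
      rw [this]
      exact (min_le_left _ _).trans hν
    have e1 := MestK_congr hXν (hMe X hX𝓧)
    have hmap : ν.map (fun x => (1 : ℝ) * x) = ν := by simp
    have i2 : IsProbabilityMeasure (ν.map fun x => (1 : ℝ) * x) := by rw [hmap]; infer_instance
    have e2 : MestK (addL ψ₀ K R M + gK f d) (ν.map fun x => (1 : ℝ) * x) :=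
      MestK_congr hmap.symm e1
    rw [hKe]
    exact hAE d ν 1 _ hd one_pos e2

end

end Pool.Agent.Q205.WV.Npn
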