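import Pool.Agent.W792.WA.All2
import Pool.Agent.Q205.WV.StepL
import Pool.Agent.Q205.WV.Npn
import Pool.Agent.Q31.WV.TV
import Pool.Agent.Q178.WV.TC
import Pool.Agent.Q166.WV.TM
import Pool.Agent.Q166.WV.TAN
import Pool.Agent.Q158.WV.LEVA
import Pool.Agent.Q176.WV.LEV0
import Pool.Agent.Q211.WV.GAPC
import Pool.Agent.Q211.WV.NPFIN
import Pool.Agent.Q26.WV.EQD
import Pool.Agent.Q241.WV.VRS
import Pool.Agent.Q87.WV.CH5
import Pool.Agent.Q182.WV.CAUI

/-!
# Project WV (helper205): assembly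

The theorem `S_NPFIN`: absolutely continuous spectrum at arbitrary disorder. Parts by helper31 (TV),
helper178 (TC), helper166 (TM, TAN), helper158 (LEVA), helper176 (LEV0), helper211 (GAPC, NPFIN),
helper26 (EQD), helper241 (VRS), helper87 (CH5), helper182 (CAUI), helper205 (STEPL, ATM, NPN);
project WA of helper792 (starting library).
-/

set_option autoImplicit false

namespace Pool.Agent.Q205.WV.All

open Pool.Agent.W792.LL Pool.Agent.W792.WA Pool.Agent.Q205.WV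

theorem avg0 : S_AVG0 := Pool.Agent.W191.LL.main Pool.Agent.W688.LL.Osc.main

theorem stepl : S_STEPL :=
  StepL.main (Step.main Al.sc1 Al.scl Al.gain Al.psi Al.uuc Al.fix Al.stab Al.cx Al.uni Al.c1)
    Al.sc1 Al.scl Al.gain Al.psi Al.uuc Al.fix Al.stab Al.cx Al.psiw Al.zfw

theorem caui : S_CAUI := Pool.Agent.Q182.WV.CAUI.main Al.cay

theorem tan : S_TAN :=
  Pool.Agent.Q166.WV.TAN.main Pool.Agent.Q31.WV.TV.main Pool.Agent.Q178.WV.TC.main
    Pool.Agent.Q166.WV.TM.main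

theorem lev0 : S_LEV0 :=
  Pool.Agent.Q176.WV.LEV0.main tan
    (Pool.Agent.Q158.WV.LEVA.main Al.sc1 Al.cx caui Step.atm)

theorem gapc : S_GAPC :=
  Pool.Agent.Q211.WV.GAPC.main lev0 Step.atm Al.cx Al.uuc Al.psi Al.fix

theorem ch5 : S_CH5 :=
  Pool.Agent.Q87.WV.CH5.main Al.cx Al.uuc Al.scl Al.zf Al.cay Al.mzp Al.uni Al.uni2 stepl

theorem npn : S_NPN :=
  Npn.main gapc stepl Step.atm (Pool.Agent.Q26.WV.EQD.main avg0) ch5 Al.uni2 Al.semi Al.fut
    Al.netx2 Al.qnt2 Al.aeqk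

theorem vrs : S_VRS := Pool.Agent.Q241.WV.VRS.main

theorem npfin : S_NPFIN := Pool.Agent.Q211.WV.NPFIN.main npn vrs Al.aff Al.sca

end Pool.Agent.Q205.WV.All
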