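import Pool.Agent.W792.WA.Stm5
import Pool.Agent.W918.LL.Opr
import Pool.Agent.W762.LL.Zf
import Pool.Agent.W978.LL.Mz
import Pool.Agent.W792.LL.Dia
import Pool.Agent.W335.LLCay

/-!
Adding one level, for any level function (copy of `Pool/Agent/W685/WA/Step.lean` with `IsLv` in the
place of `IsSemi`).
-/

namespace Pool.Agent.Q205.WV.Step

open MeasureTheory Filter Pool.Agent.W792.LL Pool.Agent.W792.WA
open scoped Topology

noncomputable section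

/-! ### The law of the level -/

theorem meas_lev (ψ : C(UnitAddCircle, ℝ)) (l : ℝ) :
    Measurable (fun φ : ℝ => l * ψ (φ : UnitAddCircle)) := by
  have : Continuous (fun φ : ℝ => l * ψ (φ : UnitAddCircle)) :=
    continuous_const.mul (ψ.continuous.comp (AddCircle.continuous_mk' (1 : ℝ)))
  exact this.measurable

theorem prob_Ioc : IsProbabilityMeasure (volume.restrict (Set.Ioc (0 : ℝ) 1)) := ⟨by simp⟩

theorem prob_lev (ψ : C(UnitAddCircle, ℝ)) (l : ℝ) : IsProbabilityMeasure (lev ψ l) := by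
  unfold lev
  have := prob_Ioc
  exact Measure.isProbabilityMeasure_map (meas_lev ψ l).aemeasurable

theorem lev_supp {ψ : C(UnitAddCircle, ℝ)} (hψ : IsLv ψ) {l : ℝ} (hl : 0 < l) :
    ∀ᵐ a ∂(lev ψ l), |a| ≤ l := by
  unfold lev
  rw [ae_map_iff (meas_lev ψ l).aemeasurable (measurableSet_le (by fun_prop) (by fun_prop))]
  filter_upwards with φ
  rw [abs_mul, abs_of_pos hl]
  nlinarith [hψ.bound (φ : UnitAddCircle)]

theorem lev_atom {ψ : C(UnitAddCircle, ℝ)} (hψ : IsLv ψ) {l : ℝ} (hl : 0 < l) (a : ℝ) :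
    lev ψ l {a} = 0 := by
  unfold lev
  rw [Measure.map_apply (meas_lev ψ l) (measurableSet_singleton a),
    Measure.restrict_apply ((meas_lev ψ l) (measurableSet_singleton a))]
  have : (fun φ : ℝ => l * ψ (φ : UnitAddCircle)) ⁻¹' {a} ∩ Set.Ioc 0 1
      = {φ : ℝ | φ ∈ Set.Ioc (0 : ℝ) 1 ∧ ψ (φ : UnitAddCircle) = a / l} := by
    ext φ
    simp only [Set.mem_inter_iff, Set.mem_preimage, Set.mem_singleton_iff, Set.mem_ofPred_eq]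
    rw [eq_div_iff hl.ne', mul_comm (ψ (φ : UnitAddCircle)) l]
    tauto
  rw [this]
  exact hψ.atom _

theorem conv_supp {ψ : C(UnitAddCircle, ℝ)} (hψ : IsLv ψ) {l : ℝ} (hl : 0 < l)
    {ρ : Measure ℝ} [IsProbabilityMeasure ρ] {C : ℝ} (hρ : ρ (Set.Icc (-C) C)ᶜ = 0) :
    ((lev ψ l).conv ρ) (Set.Icc (-(C + l)) (C + l))ᶜ = 0 := by
  have := prob_lev ψ l
  have h1 : ∀ᵐ p ∂((lev ψ l).prod ρ), p.1 + p.2 ∈ Set.Icc (-(C + l)) (C + l) := by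
    have a1 : ∀ᵐ p ∂((lev ψ l).prod ρ), |p.1| ≤ l :=
      Measure.quasiMeasurePreserving_fst.ae (lev_supp hψ hl)
    have a2 : ∀ᵐ p ∂((lev ψ l).prod ρ), p.2 ∈ Set.Icc (-C) C := by
      have : ∀ᵐ b ∂ρ, b ∈ Set.Icc (-C) C := by
        rw [ae_iff]; exact hρ
      exact Measure.quasiMeasurePreserving_snd.ae this
    filter_upwards [a1, a2] with p h1 h2
    have := abs_le.1 h1
    constructor <;> linarith [h2.1, h2.2]
  rw [Measure.conv, Measure.map_apply (by fun_prop) measurableSet_Icc.compl]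
  exact ae_iff.1 h1

theorem conv_atom {ψ : C(UnitAddCircle, ℝ)} (hψ : IsLv ψ) {l : ℝ} (hl : 0 < l)
    {ρ : Measure ℝ} [IsProbabilityMeasure ρ] (a : ℝ) : ((lev ψ l).conv ρ) {a} = 0 := by
  have := prob_lev ψ l
  have hms : MeasurableSet ((fun x : ℝ × ℝ => x.1 + x.2) ⁻¹' {a}) :=
    (measurable_fst.add measurable_snd) (measurableSet_singleton a)
  rw [Measure.conv, Measure.map_apply (by fun_prop) (measurableSet_singleton a),
    Measure.prod_apply_symm hms]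
  rw [lintegral_eq_zero_iff' (measurable_measure_prodMk_right hms).aemeasurable]
  filter_upwards with y
  have : (fun x : ℝ => (x, y)) ⁻¹' ((fun x : ℝ × ℝ => x.1 + x.2) ⁻¹' {a}) = {a - y} := by
    ext x
    simp only [Set.mem_preimage, Set.mem_singleton_iff]
    constructor <;> intro h <;> linarith
  rw [this]
  exact lev_atom hψ hl _

theorem conv_two {ψ : C(UnitAddCircle, ℝ)} (hψ : IsLv ψ) {l : ℝ} (hl : 0 < l)
    {ρ : Measure ℝ} [IsProbabilityMeasure ρ] (a b : ℝ) : ((lev ψ l).conv ρ) {a, b} < 1 := by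
  have h : ((lev ψ l).conv ρ) {a, b} ≤ 0 := by
    calc ((lev ψ l).conv ρ) {a, b} = ((lev ψ l).conv ρ) ({a} ∪ {b}) := by rfl
      _ ≤ ((lev ψ l).conv ρ) {a} + ((lev ψ l).conv ρ) {b} := measure_union_le _ _
      _ = 0 := by rw [conv_atom hψ hl, conv_atom hψ hl, add_zero]
  exact lt_of_le_of_lt h zero_lt_one

theorem conv_int {ψ : C(UnitAddCircle, ℝ)} {l : ℝ}
    {ρ : Measure ℝ} [IsProbabilityMeasure ρ] (f : ℝ → ℂ) (hf : Measurable f) (B : ℝ)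
    (hB : ∀ a, ‖f a‖ ≤ B) :
    ∫ a, f a ∂((lev ψ l).conv ρ)
      = ∫ φ in Set.Ioc (0 : ℝ) 1, ∫ b, f (l * ψ (φ : UnitAddCircle) + b) ∂ρ := by
  have := prob_lev ψ l
  have hi : Integrable f ((lev ψ l).conv ρ) :=
    Integrable.of_bound hf.aestronglyMeasurable B (ae_of_all _ hB)
  rw [integral_conv hi]
  have hsm : StronglyMeasurable (fun x : ℝ => ∫ y, f (x + y) ∂ρ) := by
    have h2 : StronglyMeasurable (Function.uncurry fun x y : ℝ => f (x + y)) :=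
      (hf.comp (measurable_fst.add measurable_snd)).stronglyMeasurable
    exact h2.integral_prod_right
  unfold lev
  rw [integral_map (meas_lev ψ l).aemeasurable hsm.aestronglyMeasurable]

/-! ### The Cayley transform -/

theorem meas_cayx (x : ℂ) : Measurable (cayx x) := by
  unfold cayx
  have h1 : Measurable fun a : ℝ => (a : ℂ) := Complex.measurable_ofReal
  exact ((measurable_const.add h1).add measurable_const).div
    ((measurable_const.add h1).sub measurable_const)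

theorem cayx_add (x : ℂ) (a b : ℝ) : cayx x (a + b) = cayx (x + a) b := by
  unfold cayx
  push_cast
  rw [add_assoc x (a : ℂ) (b : ℂ)]

theorem lip (hSCL : S_SCL) (hCX : S_CX) (ρ : Measure ℝ) [IsProbabilityMeasure ρ] {σ : ℝ}
    (hσ : 0 < σ) {x x' s s' : ℂ} (hx : x.im ≤ 0) (hx' : x'.im ≤ 0) (hs : ‖s‖ ≤ 1 - σ)
    (hs' : ‖s'‖ ≤ 1 - σ) :
    ‖Us ρ (cayx x) s - Us ρ (cayx x') s'‖ ≤ 8 / σ ^ 2 * (2 * ‖x - x'‖ + ‖s - s'‖) := by
  have n1 := fun a => (hCX.1 x a hx).1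
  have n2 := fun a => (hCX.1 x' a hx').1
  refine hSCL ρ (cayx x) (cayx x') σ (2 * ‖x - x'‖) s s' (meas_cayx x) (meas_cayx x') hσ
    (ae_of_all _ n1) (ae_of_all _ n2) (by linarith) (by linarith) ?_ ?_ ?_
  · exact ae_of_all _ fun a => by nlinarith [norm_nonneg s, n1 a]
  · exact ae_of_all _ fun a => by nlinarith [norm_nonneg s', n2 a]
  · refine ae_of_all _ fun a => ?_
    have := hCX.2.1 x x' a a hx hx'
    simpa using this

/-! ### The symbol on the product -/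

/-- The symbol with the additional circle variable. -/
def Wf (ρ : Measure ℝ) (ψ : C(UnitAddCircle, ℝ)) (l : ℝ) {d : ℕ} (K : C(UnitAddTorus (Fin d), ℝ))
    (z : ℂ) (s : C(UnitAddTorus (Fin d), ℂ)) (p : UnitAddTorus (Fin d) × UnitAddCircle) : ℂ :=
  Us ρ (cayx (((K p.1 + l * ψ p.2 : ℝ) : ℂ) - z)) (s p.1)

theorem im_le {z : ℂ} (hz : 0 ≤ z.im) (r : ℝ) : ((r : ℂ) - z).im ≤ 0 := by
  rw [Complex.sub_im, Complex.ofReal_im]
  linarith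

theorem Wf_cont (hSCL : S_SCL) (hCX : S_CX) (ρ : Measure ℝ) [IsProbabilityMeasure ρ]
    (ψ : C(UnitAddCircle, ℝ)) (l : ℝ) {d : ℕ} (K : C(UnitAddTorus (Fin d), ℝ)) {σ : ℝ}
    (hσ : 0 < σ) {z : ℂ} (hz : 0 ≤ z.im) {s : C(UnitAddTorus (Fin d), ℂ)} (hs : ‖s‖ ≤ 1 - σ) :
    Continuous (Wf ρ ψ l K z s) := by
  have hs' : ∀ k, ‖s k‖ ≤ 1 - σ := fun k => (s.norm_coe_le_norm k).trans hs
  rw [continuous_iff_continuousAt]
  intro p
  rw [ContinuousAt, tendsto_iff_norm_sub_tendsto_zero]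
  refine squeeze_zero (fun _ => norm_nonneg _)
    (fun p' => lip hSCL hCX ρ hσ (im_le hz _) (im_le hz _) (hs' _) (hs' _)) ?_
  have hc : Continuous (fun p' : UnitAddTorus (Fin d) × UnitAddCircle =>
      8 / σ ^ 2 * (2 * ‖((K p'.1 + l * ψ p'.2 : ℝ) : ℂ) - z
        - (((K p.1 + l * ψ p.2 : ℝ) : ℂ) - z)‖ + ‖s p'.1 - s p.1‖)) := by fun_prop
  have := hc.tendsto p
  simpa using this

/-- The same as a continuous map. -/
def WC (hSCL : S_SCL) (hCX : S_CX) (ρ : Measure ℝ) [IsProbabilityMeasure ρ]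
    (ψ : C(UnitAddCircle, ℝ)) (l : ℝ) {d : ℕ} (K : C(UnitAddTorus (Fin d), ℝ)) {σ : ℝ}
    (hσ : 0 < σ) {z : ℂ} (hz : 0 ≤ z.im) {s : C(UnitAddTorus (Fin d), ℂ)} (hs : ‖s‖ ≤ 1 - σ) :
    C(UnitAddTorus (Fin d) × UnitAddCircle, ℂ) :=
  ⟨Wf ρ ψ l K z s, Wf_cont hSCL hCX ρ ψ l K hσ hz hs⟩

theorem toC_apply {X : Type} [TopologicalSpace X] {f : X → ℂ} (h : Continuous f) (x : X) :
    toC f x = f x := by
  unfold toC
  rw [dif_pos h]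
  rfl

theorem WM_apply {d : ℕ} (W : C(UnitAddTorus (Fin d) × UnitAddCircle, ℂ)) (M : ℕ)
    (k : UnitAddTorus (Fin d)) :
    WM W M k = W (k, ((M * lap d k / (2 * Real.pi) : ℝ) : UnitAddCircle)) := by
  unfold WM
  have h : Continuous fun k : UnitAddTorus (Fin d) =>
      ((M * lap d k / (2 * Real.pi) : ℝ) : UnitAddCircle) :=
    (AddCircle.continuous_mk' (1 : ℝ)).comp (by fun_prop)
  exact toC_apply (W.continuous.comp (continuous_id.prodMk h)) k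

theorem UU_apply (hCX : S_CX) (hUUC : S_UUC) {d : ℕ} (ρ : Measure ℝ) [IsProbabilityMeasure ρ]
    {C : ℝ} (hρ : ρ (Set.Icc (-C) C)ᶜ = 0) (K : C(UnitAddTorus (Fin d), ℝ)) {z : ℂ}
    (hz : 0 ≤ z.im) {s : C(UnitAddTorus (Fin d), ℂ)} (hs : ‖s‖ < 1) (k : UnitAddTorus (Fin d)) :
    UU ρ (wz K z) s k = Us ρ (cayx ((K k : ℂ) - z)) (s k) := by
  have h := (hUUC d ρ C 1 (wz K z) s hρ (hCX.2.2.2 d K z hz) zero_le_one le_rfl
    (fun k a _ => (hCX.1 _ a (im_le hz _)).1) hs.le (by linarith)).1 k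
  rw [h]
  rfl

theorem UU_eq_WM (hSCL : S_SCL) (hCX : S_CX) (hUUC : S_UUC) (ρ : Measure ℝ)
    [IsProbabilityMeasure ρ] {C : ℝ} (hρ : ρ (Set.Icc (-C) C)ᶜ = 0)
    (ψ : C(UnitAddCircle, ℝ)) (l : ℝ) {d : ℕ} (K : C(UnitAddTorus (Fin d), ℝ)) {σ : ℝ}
    (hσ : 0 < σ) {z : ℂ} (hz : 0 ≤ z.im) {s : C(UnitAddTorus (Fin d), ℂ)} (hs : ‖s‖ ≤ 1 - σ)
    (M : ℕ) : UU ρ (wz (addL ψ K l M) z) s = WM (WC hSCL hCX ρ ψ l K hσ hz hs) M := by
  ext k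
  rw [WM_apply, UU_apply hCX hUUC ρ hρ _ hz (by linarith)]
  rfl

/-! ### The functional `Zf` -/

theorem zf_int (hZ : S_ZF) (hM : S_MZ) (hCay : S_CAY) (ν : Measure ℝ) [IsProbabilityMeasure ν]
    {d : ℕ} {q : ℝ} (h0 : 0 ≤ q) (h1 : q < 1) {m m' : C(UnitAddTorus (Fin d), ℂ)}
    (hm : ‖m‖ ≤ q) (hm' : ‖m'‖ ≤ q) :
    Integrable (fun v : (Fin d → ℤ) → ℝ => ‖Zf m (fun x => cay (v x))
      - Zf m' (fun x => cay (v x))‖) (Pn ν (Fin d → ℤ)) ∧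
    ∫ v, ‖Zf m (fun x => cay (v x)) - Zf m' (fun x => cay (v x))‖ ∂(Pn ν (Fin d → ℤ))
      ≤ ‖m - m'‖ / (1 - q) ^ 2 := by
  have hb : ∀ v : (Fin d → ℤ) → ℝ, ‖Zf m (fun x => cay (v x))
      - Zf m' (fun x => cay (v x))‖ ≤ ‖m - m'‖ / (1 - q) ^ 2 := fun v =>
    (hZ d m m' (fun x => cay (v x)) q h0 h1 hm hm' (fun x => (hCay.1 _).le)).2.2.1
  have hi : Integrable (fun v : (Fin d → ℤ) → ℝ => ‖Zf m (fun x => cay (v x))
      - Zf m' (fun x => cay (v x))‖) (Pn ν (Fin d → ℤ)) := by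
    refine Integrable.of_bound (((hM d m q h0 h1 hm).sub
      (hM d m' q h0 h1 hm')).norm.aestronglyMeasurable) (‖m - m'‖ / (1 - q) ^ 2)
      (ae_of_all _ fun v => ?_)
    rw [norm_norm]
    exact hb v
  refine ⟨hi, ?_⟩
  calc ∫ v, ‖Zf m (fun x => cay (v x)) - Zf m' (fun x => cay (v x))‖ ∂(Pn ν (Fin d → ℤ))
      ≤ ∫ _ : (Fin d → ℤ) → ℝ, ‖m - m'‖ / (1 - q) ^ 2 ∂(Pn ν (Fin d → ℤ)) :=
        integral_mono hi (integrable_const _) hb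
    _ = ‖m - m'‖ / (1 - q) ^ 2 := by simp

theorem zf_tri (hZ : S_ZF) (hM : S_MZ) (hCay : S_CAY) (ν : Measure ℝ) [IsProbabilityMeasure ν]
    {d : ℕ} {q : ℝ} (h0 : 0 ≤ q) (h1 : q < 1) {m₁ m₂ m₃ : C(UnitAddTorus (Fin d), ℂ)}
    (hm₁ : ‖m₁‖ ≤ q) (hm₂ : ‖m₂‖ ≤ q) (hm₃ : ‖m₃‖ ≤ q) :
    ∫ v, ‖Zf m₁ (fun x => cay (v x)) - Zf m₃ (fun x => cay (v x))‖ ∂(Pn ν (Fin d → ℤ))
      ≤ ∫ v, ‖Zf m₁ (fun x => cay (v x)) - Zf m₂ (fun x => cay (v x))‖ ∂(Pn ν (Fin d → ℤ))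
        + ∫ v, ‖Zf m₂ (fun x => cay (v x)) - Zf m₃ (fun x => cay (v x))‖ ∂(Pn ν (Fin d → ℤ)) := by
  have i1 := (zf_int hZ hM hCay ν h0 h1 hm₁ hm₂).1
  have i2 := (zf_int hZ hM hCay ν h0 h1 hm₂ hm₃).1
  have i3 := (zf_int hZ hM hCay ν h0 h1 hm₁ hm₃).1
  rw [← integral_add i1 i2]
  refine integral_mono i3 (i1.add i2) fun v => ?_
  exact norm_sub_le_norm_sub_add_norm_sub _ _ _

theorem zf_sym (ν : Measure ℝ) [IsProbabilityMeasure ν]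
    {d : ℕ} (m₁ m₂ : C(UnitAddTorus (Fin d), ℂ)) :
    ∫ v, ‖Zf m₁ (fun x => cay (v x)) - Zf m₂ (fun x => cay (v x))‖ ∂(Pn ν (Fin d → ℤ))
      = ∫ v, ‖Zf m₂ (fun x => cay (v x)) - Zf m₁ (fun x => cay (v x))‖ ∂(Pn ν (Fin d → ℤ)) := by
  simp_rw [norm_sub_rev]

/-! ### Fixed energy -/

theorem conv_Bs (hCX : S_CX) {ψ : C(UnitAddCircle, ℝ)} {l : ℝ} {ρ : Measure ℝ}
    [IsProbabilityMeasure ρ] {σ : ℝ} (hσ : 0 < σ) {x s : ℂ} (hx : x.im ≤ 0) (hs : ‖s‖ ≤ 1 - σ) :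
    Bs ((lev ψ l).conv ρ) (cayx x) s
      = ∫ φ in Set.Ioc (0 : ℝ) 1, Bs ρ (cayx (x + (l * ψ (φ : UnitAddCircle) : ℝ))) s := by
  have hm : Measurable fun a => cayx x a / (1 - cayx x a * s) :=
    (meas_cayx x).div (measurable_const.sub ((meas_cayx x).mul_const s))
  have hb : ∀ a, ‖cayx x a / (1 - cayx x a * s)‖ ≤ 1 / σ := by
    intro a
    have n1 := (hCX.1 x a hx).1
    have n2 : σ ≤ ‖1 - cayx x a * s‖ := by
      have h1 : ‖(1 : ℂ)‖ - ‖cayx x a * s‖ ≤ ‖1 - cayx x a * s‖ := norm_sub_norm_le _ _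
      rw [norm_one, norm_mul] at h1
      nlinarith [norm_nonneg s]
    rw [norm_div]
    exact div_le_div₀ zero_le_one n1 hσ n2
  unfold Bs
  rw [conv_int (fun a => cayx x a / (1 - cayx x a * s)) hm (1 / σ) hb]
  simp_rw [cayx_add]

theorem fixed_z (hSC1 : S_SC1) (hSCL : S_SCL) (hCX : S_CX) (hUUC : S_UUC) (hC1 : S_C1)
    (ν : Measure ℝ) [IsProbabilityMeasure ν] {d : ℕ} (hd : 0 < d) (hvr : 0 < vr ν)
    {ψ : C(UnitAddCircle, ℝ)} (hψ : IsLv ψ) (ρ : Measure ℝ) [IsProbabilityMeasure ρ] {C : ℝ}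
    (hρ : ρ (Set.Icc (-C) C)ᶜ = 0) {l : ℝ} (hl : 0 < l) (K : C(UnitAddTorus (Fin d), ℝ)) {σ : ℝ}
    (hσ : 0 < σ) {q : ℝ} (hq0 : 0 ≤ q) (hq : q < 1) {z : ℂ} (hz : 0 ≤ z.im)
    {s : C(UnitAddTorus (Fin d), ℂ)} (hfix : IsFix ν ((lev ψ l).conv ρ) (wz K z) s)
    (hs : ‖s‖ ≤ 1 - σ) (hW : ∀ p, ‖Wf ρ ψ l K z s p‖ ≤ q)
    (hU : ‖UU ((lev ψ l).conv ρ) (wz K z) s‖ ≤ q) (e : ℝ) (he : 0 < e) :
    ∃ M₀ : ℕ, ∀ M : ℕ, M₀ ≤ M → ‖psi ν (UU ρ (wz (addL ψ K l M) z) s) - s‖ ≤ e ∧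
      ∫ v, ‖Zf (UU ρ (wz (addL ψ K l M) z) s) (fun x => cay (v x))
        - Zf (UU ((lev ψ l).conv ρ) (wz K z) s) (fun x => cay (v x))‖ ∂(Pn ν (Fin d → ℤ)) ≤ e := by
  have := prob_lev ψ l
  have hWn : ‖WC hSCL hCX ρ ψ l K hσ hz hs‖ ≤ q := (ContinuousMap.norm_le _ hq0).2 hW
  have hs1 : ‖s‖ < 1 := by linarith
  have key : ∀ k, UU ((lev ψ l).conv ρ) (wz K z) s k
      / (1 - UU ((lev ψ l).conv ρ) (wz K z) s k * s k)
      = ∫ φ in Set.Ioc (0 : ℝ) 1, WC hSCL hCX ρ ψ l K hσ hz hs (k, (φ : UnitAddCircle))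
        / (1 - WC hSCL hCX ρ ψ l K hσ hz hs (k, φ) * s k) := by
    intro k
    have hk : ‖s k‖ ≤ 1 - σ := (s.norm_coe_le_norm k).trans hs
    rw [UU_apply hCX hUUC ((lev ψ l).conv ρ) (conv_supp hψ hl hρ) K hz hs1 k]
    have h1 := (hSC1 ((lev ψ l).conv ρ) (cayx ((K k : ℂ) - z)) 1 (s k) (meas_cayx _) zero_le_one
      le_rfl (ae_of_all _ fun a => (hCX.1 _ a (im_le hz _)).1) (by linarith) (by linarith)).2.2.2.2
    rw [h1, conv_Bs hCX hσ (im_le hz _) hk]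
    refine integral_congr_ae (ae_of_all _ fun φ => ?_)
    have h2 := (hSC1 ρ (cayx (((K k + l * ψ (φ : UnitAddCircle) : ℝ) : ℂ) - z)) 1 (s k)
      (meas_cayx _) zero_le_one le_rfl (ae_of_all _ fun a => (hCX.1 _ a (im_le hz _)).1)
      (by linarith) (by linarith)).2.2.2.2
    have h3 : ((K k : ℂ) - z + ((l * ψ (φ : UnitAddCircle) : ℝ) : ℂ))
        = (((K k + l * ψ (φ : UnitAddCircle) : ℝ) : ℂ) - z) := by
      push_cast
      ring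
    show Bs ρ (cayx ((K k : ℂ) - z + ((l * ψ (φ : UnitAddCircle) : ℝ) : ℂ))) (s k) = _
    rw [h3]
    exact h2.symm
  obtain ⟨M₀, hM₀⟩ := hC1 ν d hd hvr q (WC hSCL hCX ρ ψ l K hσ hz hs) s
    (UU ((lev ψ l).conv ρ) (wz K z) s) hq hWn hU hfix.1 hfix.2 key e he
  refine ⟨M₀, fun M hM => ?_⟩
  rw [UU_eq_WM hSCL hCX hUUC ρ hρ ψ l K hσ hz hs M]
  exact hM₀ M hM

/-! ### Lipschitz bounds for symbols -/

theorem UU_lip (hSCL : S_SCL) (hCX : S_CX) (hUUC : S_UUC) {d : ℕ} (ρ : Measure ℝ)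
    [IsProbabilityMeasure ρ] {C : ℝ} (hρ : ρ (Set.Icc (-C) C)ᶜ = 0)
    (K : C(UnitAddTorus (Fin d), ℝ)) {σ : ℝ} (hσ : 0 < σ) {z z' : ℂ} (hz : 0 ≤ z.im)
    (hz' : 0 ≤ z'.im) {s s' : C(UnitAddTorus (Fin d), ℂ)} (hs : ‖s‖ ≤ 1 - σ)
    (hs' : ‖s'‖ ≤ 1 - σ) :
    ‖UU ρ (wz K z) s - UU ρ (wz K z') s'‖ ≤ 8 / σ ^ 2 * (2 * ‖z - z'‖ + ‖s - s'‖) := by
  refine (ContinuousMap.norm_le _ (by positivity)).2 fun k => ?_
  have hk : ‖s k‖ ≤ 1 - σ := (s.norm_coe_le_norm k).trans hs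
  have hk' : ‖s' k‖ ≤ 1 - σ := (s'.norm_coe_le_norm k).trans hs'
  rw [ContinuousMap.sub_apply, UU_apply hCX hUUC ρ hρ K hz (by linarith),
    UU_apply hCX hUUC ρ hρ K hz' (by linarith)]
  refine (lip hSCL hCX ρ hσ (im_le hz _) (im_le hz' _) hk hk').trans ?_
  have h1 : ‖(K k : ℂ) - z - ((K k : ℂ) - z')‖ = ‖z - z'‖ := by
    rw [show (K k : ℂ) - z - ((K k : ℂ) - z') = -(z - z') by ring, norm_neg]
  have h2 : ‖s k - s' k‖ ≤ ‖s - s'‖ := by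
    have := (s - s').norm_coe_le_norm k
    rwa [ContinuousMap.sub_apply] at this
  rw [h1]
  have : 0 ≤ 8 / σ ^ 2 := by positivity
  nlinarith

theorem tb_Zs (d : ℕ) : TotallyBounded (Zs d) := by
  refine (isCompact_closedBall (0 : ℂ) (4 * d + 1)).totallyBounded.subset fun z hz => ?_
  obtain ⟨h1, h2, h3, h4⟩ := hz
  rw [mem_closedBall_zero_iff]
  have := Complex.norm_le_abs_re_add_abs_im z
  rw [abs_of_nonneg h1, abs_of_pos h3] at this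
  linarith

theorem norm_x_le {d : ℕ} {ψ : C(UnitAddCircle, ℝ)} (hψ : IsLv ψ) {l : ℝ} (hl : 0 < l)
    (K : C(UnitAddTorus (Fin d), ℝ)) {z : ℂ} (hz : z ∈ Zs d) (k : UnitAddTorus (Fin d))
    (t : UnitAddCircle) : ‖((K k + l * ψ t : ℝ) : ℂ) - z‖ ≤ ‖K‖ + l + 4 * d + 1 := by
  obtain ⟨h1, h2, h3, h4⟩ := hz
  have hzn := Complex.norm_le_abs_re_add_abs_im z
  rw [abs_of_nonneg h1, abs_of_pos h3] at hzn
  have h5 : ‖((K k + l * ψ t : ℝ) : ℂ)‖ ≤ ‖K‖ + l := by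
    rw [Complex.norm_real]
    refine (norm_add_le _ _).trans (add_le_add (K.norm_coe_le_norm k) ?_)
    rw [Real.norm_eq_abs, abs_mul, abs_of_pos hl]
    nlinarith [hψ.bound t]
  have := norm_sub_le ((K k + l * ψ t : ℝ) : ℂ) z
  linarith

/-- `S_STEP` for any level function. -/
def S_STEP1 : Prop :=
  ∀ (ν : Measure ℝ) [IsProbabilityMeasure ν] (d : ℕ) (ψ : C(UnitAddCircle, ℝ))
    (ρ : Measure ℝ) [IsProbabilityMeasure ρ] (C σ l : ℝ) (K : C(UnitAddTorus (Fin d), ℝ)),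
    0 < d → IsLv ψ → 0 < vr ν → ρ (Set.Icc (-C) C)ᶜ = 0 → (∀ a b : ℝ, ρ {a, b} < 1) →
    0 < l → 0 < σ → (∀ z ∈ Zs d, ∀ s, IsFix ν ((lev ψ l).conv ρ) (wz K z) s → ‖s‖ ≤ 1 - σ) →
    ∀ e : ℝ, 0 < e → ∃ M₀ : ℕ, ∀ M : ℕ, M₀ ≤ M → ∀ z ∈ Zs d, ∀ s s',
      IsFix ν ((lev ψ l).conv ρ) (wz K z) s → IsFix ν ρ (wz (addL ψ K l M) z) s' →
      ‖s - s'‖ ≤ e ∧ ∫ v, ‖Zf (UU ((lev ψ l).conv ρ) (wz K z) s) (fun x => cay (v x))
        - Zf (UU ρ (wz (addL ψ K l M) z) s') (fun x => cay (v x))‖ ∂(Pn ν (Fin d → ℤ)) ≤ e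

theorem main : S_SC1 → S_SCL → S_GAIN → S_PSI → S_UUC → S_FIX → S_STAB → S_CX → S_UNI → S_C1 →
    S_STEP1 := by
  intro hSC1 hSCL hGAIN hPSI hUUC hFIX hSTAB hCX hUNI hC1 ν _ d ψ ρ _ C σ l K hd hψ hvr hρ htwo
    hl hσ hbnd e he
  have hO : S_OPR := Pool.Agent.W918.LL.main
  have hCay : S_CAY := Pool.Agent.W335.LLCay.main
  have hZ : S_ZF := Pool.Agent.W762.LL.main hO Pool.Agent.W792.LL.DiaP.main
  have hM : S_MZ := Pool.Agent.W978.LL.main hO Pool.Agent.W792.LL.DiaP.main hZ hCay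
  have := prob_lev ψ l
  have hρ0s : ((lev ψ l).conv ρ) (Set.Icc (-(C + l)) (C + l))ᶜ = 0 := conv_supp hψ hl hρ
  obtain ⟨huniq, ⟨q0, hq00, hq01, hq0⟩, hcont⟩ :=
    hUNI ν d ((lev ψ l).conv ρ) (C + l) σ K hvr hρ0s (conv_two hψ hl) hσ hbnd
  obtain ⟨γ, hγ0, hγ1, hgain⟩ :=
    hGAIN ρ C (‖K‖ + l + 4 * d + 1) (σ / 2) hρ htwo (half_pos hσ)
  obtain ⟨q, hq⟩ : ∃ q, q = max (Real.sqrt (1 - γ)) q0 := ⟨_, rfl⟩
  have hqq0 : q0 ≤ q := hq ▸ le_max_right _ _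
  have hqs : Real.sqrt (1 - γ) ≤ q := hq ▸ le_max_left _ _
  have hq00' : 0 ≤ q := hq00.trans hqq0
  have hq1 : q < 1 := by
    rw [hq]
    refine max_lt ?_ hq01
    rw [Real.sqrt_lt' one_pos]
    linarith
  have hσ2 : 0 < σ / 2 := half_pos hσ
  -- the symbols have norm at most `q`
  have hWp : ∀ z ∈ Zs d, ∀ (k : UnitAddTorus (Fin d)) (t : UnitAddCircle) (a : ℂ),
      ‖a‖ ≤ 1 - σ / 2 → ‖Us ρ (cayx (((K k + l * ψ t : ℝ) : ℂ) - z)) a‖ ≤ q := by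
    intro z hz k t a ha
    have h := (hgain (((K k + l * ψ t : ℝ) : ℂ) - z) 0 a (norm_x_le hψ hl K hz k t)
      (im_le hz.2.2.1.le _) (by simp) ha).2
    exact (Real.le_sqrt_of_sq_le h).trans hqs
  have hWn : ∀ z ∈ Zs d, ∀ (M : ℕ) (s : C(UnitAddTorus (Fin d), ℂ)), ‖s‖ ≤ 1 - σ / 2 →
      ‖UU ρ (wz (addL ψ K l M) z) s‖ ≤ q := by
    intro z hz M s hs
    refine (ContinuousMap.norm_le _ hq00').2 fun k => ?_
    rw [UU_apply hCX hUUC ρ hρ _ hz.2.2.1.le (by linarith)]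
    exact hWp z hz k _ _ ((s.norm_coe_le_norm k).trans hs)
  -- constants
  obtain ⟨L, hL⟩ : ∃ L, L = 8 / (σ / 2) ^ 2 := ⟨_, rfl⟩
  have hLpos : 0 < L := by rw [hL]; positivity
  obtain ⟨B, hB⟩ : ∃ B, B = 1 / (1 - q) ^ 2 := ⟨_, rfl⟩
  have h1q : 0 < 1 - q := by linarith
  have hBpos : 0 < B := by rw [hB]; positivity
  obtain ⟨e3, he3⟩ : ∃ e3, e3 = min (min 1 e) (min (σ / 2) (e / (2 * L * B))) := ⟨_, rfl⟩
  have he3pos : 0 < e3 := by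
    rw [he3]
    exact lt_min (lt_min one_pos he) (lt_min hσ2 (by positivity))
  have he31 : e3 ≤ 1 := he3 ▸ (min_le_left _ _).trans (min_le_left _ _)
  have he3e : e3 ≤ e := he3 ▸ (min_le_left _ _).trans (min_le_right _ _)
  have he3σ : e3 ≤ σ / 2 := he3 ▸ (min_le_right _ _).trans (min_le_left _ _)
  have he3B : L * e3 * B ≤ e / 2 := by
    have h : e3 ≤ e / (2 * L * B) := he3 ▸ (min_le_right _ _).trans (min_le_right _ _)
    rw [le_div_iff₀ (by positivity)] at h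
    linarith
  obtain ⟨e2, he2⟩ : ∃ e2, e2 = min (σ / 2 * γ * e3 ^ 2 / 28) (e / 2) := ⟨_, rfl⟩
  have he2pos : 0 < e2 := by
    rw [he2]
    exact lt_min (by positivity) (by positivity)
  have he2a : 28 * e2 ≤ σ / 2 * γ * e3 ^ 2 := by
    have h : e2 ≤ σ / 2 * γ * e3 ^ 2 / 28 := he2 ▸ min_le_left _ _
    linarith
  have he2b : e2 ≤ e / 2 := he2 ▸ min_le_right _ _
  have he2c : 28 * e2 ≤ σ / 2 * γ := by
    refine he2a.trans ?_
    have : e3 ^ 2 ≤ 1 := pow_le_one₀ he3pos.le he31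
    have h2 : 0 ≤ σ / 2 * γ := by positivity
    nlinarith
  obtain ⟨e4, he4⟩ : ∃ e4, e4 = e2 / (4 * (1 + B + 3 * L * B)) := ⟨_, rfl⟩
  have he4pos : 0 < e4 := by rw [he4]; positivity
  have he4e : e4 * (4 * (1 + B + 3 * L * B)) = e2 := by
    rw [he4]
    field_simp
  have hLB : 0 < L * B := by positivity
  have he4a : e4 + e4 * B + 3 * L * e4 * B = e2 / 4 := by nlinarith
  have hp1 : 0 < e4 * B := by positivity
  have hp2 : 0 < 3 * L * e4 * B := by positivity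
  obtain ⟨θ, hθ, hunif⟩ := hcont e4 he4pos
  -- the fixed energies
  have hfz : ∀ z ∈ Zs d, ∀ᶠ M : ℕ in atTop, ∀ s, IsFix ν ((lev ψ l).conv ρ) (wz K z) s →
      (‖psi ν (UU ρ (wz (addL ψ K l M) z) s) - s‖ ≤ e2 / 4 ∧
      ∫ v, ‖Zf (UU ρ (wz (addL ψ K l M) z) s) (fun x => cay (v x))
        - Zf (UU ((lev ψ l).conv ρ) (wz K z) s) (fun x => cay (v x))‖ ∂(Pn ν (Fin d → ℤ))
          ≤ e2 / 4) := by
    intro z hz
    obtain ⟨s, hs, hu⟩ := huniq z hz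
    have hsn : ‖s‖ ≤ 1 - σ := hbnd z hz s hs
    have hsn2 : ‖s‖ ≤ 1 - σ / 2 := by linarith
    obtain ⟨M₀, hM₀⟩ := fixed_z hSC1 hSCL hCX hUUC hC1 ν hd hvr hψ ρ hρ hl K hσ2 hq00' hq1
      hz.2.2.1.le hs hsn2 (fun p => hWp z hz _ _ _ ((s.norm_coe_le_norm _).trans hsn2))
      ((hq0 z hz s hs).trans hqq0) (e2 / 4) (by positivity)
    filter_upwards [eventually_ge_atTop M₀] with M hM s' hs'
    rw [hu s' hs']
    exact hM₀ M hM
  obtain ⟨t, htZ, htf, htc⟩ := Metric.finite_approx_of_totallyBounded (tb_Zs d) (min θ e4)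
    (lt_min hθ he4pos)
  obtain ⟨M₀, hM₀⟩ := eventually_atTop.1 ((eventually_all_finite htf).2 fun y hy =>
    hfz y (htZ hy))
  refine ⟨M₀, fun M hMM z hz s s' hs hs' => ?_⟩
  obtain ⟨y, hy, hyz⟩ := Set.mem_iUnion₂.1 (htc hz)
  rw [Metric.mem_ball, dist_eq_norm] at hyz
  have hyZ := htZ hy
  have hzy1 : ‖z - y‖ ≤ θ := hyz.le.trans (min_le_left _ _)
  have hzy2 : ‖z - y‖ ≤ e4 := hyz.le.trans (min_le_right _ _)
  obtain ⟨r, hr, -⟩ := huniq y hyZ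
  obtain ⟨hsr, hUr⟩ := hunif z hz y hyZ hzy1 s r hs hr
  obtain ⟨hp, hi⟩ := hM₀ M hMM y hy r hr
  have hsn : ‖s‖ ≤ 1 - σ := hbnd z hz s hs
  have hsn2 : ‖s‖ ≤ 1 - σ / 2 := by linarith
  have hrn : ‖r‖ ≤ 1 - σ := hbnd y hyZ r hr
  have hrn2 : ‖r‖ ≤ 1 - σ / 2 := by linarith
  have hzi := hz.2.2.1.le
  have hyi := hyZ.2.2.1.le
  have hWz := hWn z hz M s hsn2
  have hWy := hWn y hyZ M r hrn2
  have hUz : ‖UU ((lev ψ l).conv ρ) (wz K z) s‖ ≤ q := (hq0 z hz s hs).trans hqq0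
  have hUy : ‖UU ((lev ψ l).conv ρ) (wz K y) r‖ ≤ q := (hq0 y hyZ r hr).trans hqq0
  have hWW : ‖UU ρ (wz (addL ψ K l M) z) s - UU ρ (wz (addL ψ K l M) y) r‖ ≤ 3 * L * e4 := by
    refine (UU_lip hSCL hCX hUUC ρ hρ _ hσ2 hzi hyi hsn2 hrn2).trans ?_
    rw [← hL]
    nlinarith
  have hdiv : ∀ a b : ℝ, 0 ≤ a → a ≤ b → a / (1 - q) ^ 2 ≤ b * B := by
    intro a b _ hab
    rw [hB, mul_one_div]
    gcongr
  have hpsi : ‖psi ν (UU ρ (wz (addL ψ K l M) z) s) - psi ν (UU ρ (wz (addL ψ K l M) y) r)‖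
      ≤ 3 * L * e4 * B := by
    refine ((hPSI ν d q _ _ hq00' hq1 hWz hWy).2.2).trans ?_
    refine le_trans ?_ (hdiv _ _ (norm_nonneg _) hWW)
    have h1 : (1 - q) ^ 2 ≤ 1 - q ^ 2 := by nlinarith
    exact div_le_div_of_nonneg_left (norm_nonneg _) (by positivity) h1
  have hpz : ‖psi ν (UU ρ (wz (addL ψ K l M) z) s) - s‖ ≤ e2 := by
    have h1 := norm_sub_le_norm_sub_add_norm_sub (psi ν (UU ρ (wz (addL ψ K l M) z) s))
      (psi ν (UU ρ (wz (addL ψ K l M) y) r)) s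
    have h2 := norm_sub_le_norm_sub_add_norm_sub (psi ν (UU ρ (wz (addL ψ K l M) y) r)) r s
    rw [norm_sub_rev r s] at h2
    linarith
  have hiz : ∫ v, ‖Zf (UU ((lev ψ l).conv ρ) (wz K z) s) (fun x => cay (v x))
      - Zf (UU ρ (wz (addL ψ K l M) z) s) (fun x => cay (v x))‖ ∂(Pn ν (Fin d → ℤ)) ≤ e / 2 := by
    have h1 := zf_tri hZ hM hCay ν hq00' hq1 hUz hUy hWz
    have h2 := zf_tri hZ hM hCay ν hq00' hq1 hUy hWy hWz
    have h3 := (zf_int hZ hM hCay ν hq00' hq1 hUz hUy).2.trans (hdiv _ _ (norm_nonneg _) hUr)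
    have h4 := (zf_int hZ hM hCay ν hq00' hq1 hWz hWy).2.trans (hdiv _ _ (norm_nonneg _) hWW)
    rw [zf_sym ν (UU ρ (wz (addL ψ K l M) z) s)] at h4
    rw [zf_sym ν (UU ρ (wz (addL ψ K l M) y) r) (UU ((lev ψ l).conv ρ) (wz K y) r)] at hi
    linarith
  -- stability
  obtain ⟨q', hq'0, hq'1, hq'⟩ := hCX.2.2.1 C (‖K‖ + l + 4 * d + 1) z.im hz.2.2.1
  have hwq : ∀ k, ∀ a ∈ Set.Icc (-C) C, ‖wz (addL ψ K l M) z k a‖ ≤ q' := by
    intro k a ha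
    refine hq' _ a (norm_x_le hψ hl K hz k _) ?_ (abs_le.2 ha)
    rw [Complex.sub_im, Complex.ofReal_im]
    linarith
  have hwc := hCX.2.2.2 d (addL ψ K l M) z hzi
  have hs'1 : ‖s'‖ < 1 := by
    refine (ContinuousMap.norm_lt_iff _ one_pos).2 fun k => ?_
    have h1 := (hFIX ν d ρ C q' (wz (addL ψ K l M) z) hvr hρ hwc hq'0 hq'1 hwq).2.1 s' hs' k
    have h2 : 0 < (1 - q' ^ 2) * vr ν / 4 := by
      have : 0 < 1 - q' ^ 2 := by nlinarith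
      positivity
    by_contra h3
    push Not at h3
    nlinarith
  have hst := hSTAB ν d ρ C q' (σ / 2) γ e2 (wz (addL ψ K l M) z) s' s hvr hρ hwc hq'0 hq'1 hwq
    hσ2 hγ0 hγ1 hs' hsn2 hpz he2c (by
      intro k
      rw [UU_apply hCX hUUC ρ hρ _ hzi hs'1, UU_apply hCX hUUC ρ hρ _ hzi (by linarith)]
      exact (hgain _ (s' k) (s k) (norm_x_le hψ hl K hz k _) (im_le hzi _)
        ((s'.norm_coe_le_norm k).trans_lt hs'1) ((s.norm_coe_le_norm k).trans hsn2)).1)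
  have hss : ‖s' - s‖ ≤ e3 := by
    have h1 : 28 * e2 / (σ / 2 * γ) ≤ e3 ^ 2 := by
      rw [div_le_iff₀ (by positivity)]
      linarith
    have h2 := hst.trans h1
    exact (pow_le_pow_iff_left₀ (norm_nonneg _) he3pos.le two_ne_zero).1 h2
  have hs'n : ‖s'‖ ≤ 1 - σ / 2 := by
    have h1 := norm_add_le (s' - s) s
    rw [sub_add_cancel] at h1
    linarith
  have hW' := hWn z hz M s' hs'n
  have hWW' : ‖UU ρ (wz (addL ψ K l M) z) s - UU ρ (wz (addL ψ K l M) z) s'‖ ≤ L * e3 := by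
    refine (UU_lip hSCL hCX hUUC ρ hρ _ hσ2 hzi hzi hsn2 hs'n).trans ?_
    rw [← hL, sub_self, norm_zero, mul_zero, zero_add, norm_sub_rev]
    exact mul_le_mul_of_nonneg_left hss hLpos.le
  refine ⟨by rw [norm_sub_rev]; linarith, ?_⟩
  have h1 := zf_tri hZ hM hCay ν hq00' hq1 hUz hWz hW'
  have h2 := (zf_int hZ hM hCay ν hq00' hq1 hWz hW').2.trans (hdiv _ _ (norm_nonneg _) hWW')
  linarith

/-- Support and atoms of a convolution with a level. -/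
theorem atm : S_ATM := by
  intro ψ l C ρ _ hψ hl
  exact ⟨prob_lev ψ l, fun h => conv_supp hψ hl h, fun a b => conv_two hψ hl a b⟩

end

end Pool.Agent.Q205.WV.Step
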