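import Pool.Agent.W792.WA.Stm5

/-!
# Project WV (helper205): purely absolutely continuous spectrum at ARBITRARY disorder

For every kinetic energy `K` on `ℓ²(ℤ^d)`, every interval `(a, b)`, `1 < p < 2`, `κ, ε > 0` there is
a bounded continuous `g` with `∫ |g(-Δ symbol)|^p ≤ ε` such that for EVERY i.i.d. potential with
`vr ν ≥ κ` (no smallness of the disorder) the operator `K + g(-Δ) + V` has almost surely purely
absolutely continuous spectrum on `(a, b)`, filling it (`S_NPFIN` of `Pool/Agent/W792/WA/Stm5.lean`).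

The statements `S_...` of the jobs are those of `Pool/Agent/W792/WA/Stm5.lean` (they import only
small definition files: `W792/WA/Defs.lean`, `Stm.lean`, ..., `W792/LL/Defs.lean`), and `S_CH5` below.
The statements `S_SC1, S_PSI, S_FIX, S_UUC, S_CX, S_CAY, ...` which occur as hypotheses are PROVED
(`Pool/Agent/W792/WA/All.lean`, `All2.lean`), but do not import those files: use them as hypotheses.
-/

set_option autoImplicit false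

namespace Pool.Agent.Q205.WV

open MeasureTheory Filter Pool.Agent.W792.LL Pool.Agent.W792.WA
open scoped Topology

noncomputable section

/-- CAUI: `S_CAY → S_CAUI`. Proof. Put `c = cay a`, so `a = i (c + 1) / (c - 1)`, `|c| = 1`. For
`w = x + γ a` (`Im w < 0`) `cayx x (γ a) / (1 - cayx x (γ a) s) = (w + i) / (w (1 - s) - i (1 + s))`.
Insert `a`: it is a Möbius function of `c`,
`((x + i)(c - 1) + i γ (c + 1)) / ((x (1 - s) - i (1 + s)) (c - 1) + i γ (1 - s) (c + 1)) = (A + B c) / (E + F c)`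
with `E = -(x (1-s) - i (1+s)) + i γ (1-s)`, `F = x (1-s) - i (1+s) + i γ (1-s)`. `|F| < |E|`: after division
by `1 - s`: `F/(1-s) = x - p + i γ`, `E/(1-s) = -(x - p - i γ)`, `p = i (1+s)/(1-s)`, `Im p > 0`,
`Im (x - p) < 0`, so `|x - p + i γ| < |x - p - i γ|`. So `= (A + B c)/E * ∑ (-F c / E)^k`, uniformly
convergent on `|c| = 1`, and all moments `∫ cay^k = 0`, `k ≥ 1` (`S_CAY`): the integral is `A / E`, the value at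
`c = 0`, i.e. `a = -i`: `(x - i γ + i) / ((x - i γ)(1 - s) - i (1 + s))` = the right side. (Or decompose
`(A + B c)/(E + F c) = A/E + const * c/(E + F c)`, and `∫ c/(E + F c) = 0` by the series.) -/
def J_CAUI : Prop := S_CAY → S_CAUI

/-- the truncated tangent on the circle, divided by its maximum (`(fourier 1 t).re = cos 2πt`, `.im = sin 2πt`) -/
def fT (τ : ℝ) (t : UnitAddCircle) : ℝ :=
  -(fourier 1 t : ℂ).im / max (1 - (fourier 1 t : ℂ).re) (1 - Real.cos (Real.pi * τ))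
    * ((1 - Real.cos (Real.pi * τ)) / Real.sin (Real.pi * τ))

/-- its maximum, times `γ` -/
def RT (γ τ : ℝ) : ℝ := γ * Real.sin (Real.pi * τ) / (1 - Real.cos (Real.pi * τ))

/-- TV: values of `fT`. Proof. `δ = 1 - cos πτ > 0`, `sin πτ > 0`; `max _ δ ≥ δ > 0`: continuous (`fourier 1` is continuous).
For real `φ`: `fourier 1 φ = exp (2πiφ)` (`fourier_coe_apply`). For `φ ∈ [τ/2, 1 - τ/2]`: `cos 2πφ ≤ cos πτ`, so the `max` is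
`1 - cos 2πφ = 2 sin² πφ`, and `-sin 2πφ/(2 sin² πφ) = - cos πφ / sin πφ = tan (π (φ - 1/2))`. Otherwise (`φ ∈ [0, τ/2) ∪ (1 - τ/2, 1]`) the max is
`δ` and `|sin 2πφ| ≤ sin πτ` (`πτ ≤ π/2`). In the first case `|cot πφ| ≤ cot (πτ/2) = sin πτ/(1 - cos πτ)` (monotone), so
`|fT| ≤ 1` in both cases (every point of the circle is the class of some `φ ∈ [0, 1)`). `RT γ τ = γ cot (πτ/2) ≤ γ · 2/(πτ)`
(`x ≤ tan x`; `sin 2x/(1 - cos 2x) = cos x / sin x`). Atoms: on `[τ/2, 1-τ/2]` the value `a` is taken at most once (`tan` is injective on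
`(-π/2, π/2)`), on `(0, τ/2)` and `(1 - τ/2, 1]` at most once each (`sin` is injective on `[-π/2, π/2]`, resp. shifted by `2π`): a finite
set (subsingleton on each piece), so volume 0. -/
def S_TV : Prop := ∀ τ : ℝ, 0 < τ → τ ≤ 1 / 2 → Continuous (fT τ) ∧ (∀ t, |fT τ t| ≤ 1) ∧
  (∀ γ : ℝ, 0 < γ → 0 < RT γ τ ∧ RT γ τ ≤ γ * (2 / (Real.pi * τ)) ∧ ∀ φ : ℝ, τ / 2 ≤ φ → φ ≤ 1 - τ / 2 →
    RT γ τ * fT τ (φ : UnitAddCircle) = γ * Real.tan (Real.pi * (φ - 1 / 2))) ∧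
  ∀ a, volume {φ : ℝ | φ ∈ Set.Ioc (0 : ℝ) 1 ∧ fT τ (φ : UnitAddCircle) = a} = 0

/-- TC: the Cauchy law is the image of the uniform law under `tan (π (u - 1/2))`. Proof. Change of variables
`u = 1/2 + arctan a / π`, a bijection `ℝ → (0, 1)` with derivative `1/(π (1 + a²))` (`Real.hasDerivAt_arctan`), the density of
`ProbabilityTheory.cauchyMeasure 0 1` (`cauchyPDFReal`); `integral_image_eq_integral_abs_deriv_smul` on `univ` (image `Ioo 0 1`). -/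
def S_TC : Prop := ∀ (g : ℝ → ℂ), Measurable g → (∃ F : ℝ, ∀ a, ‖g a‖ ≤ F) →
  ∫ a, g a ∂(ProbabilityTheory.cauchyMeasure 0 1) =
    ∫ u in Set.Ioc (0 : ℝ) 1, g (Real.tan (Real.pi * (u - 1 / 2)))

/-- TM: the moment. Proof. Symmetry `φ ↦ 1 - φ`; for `φ ∈ [τ/2, 1/2]`: `|tan (π (φ - 1/2))| = cot πφ ≤ 1/(πφ)`
(`x ≤ tan x` on `[0, π/2)`), and `∫_{τ/2}^{1/2} (πφ)^{-p} dφ ≤ π^{-p} (τ/2)^{1-p}/(p-1)` (`integral_rpow`). Twice this is the right side. -/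
def S_TM : Prop := ∀ τ p : ℝ, 0 < τ → τ ≤ 1 / 2 → 1 < p → p < 2 →
  ∫ φ in Set.Icc (τ / 2) (1 - τ / 2), |Real.tan (Real.pi * (φ - 1 / 2))| ^ p ≤
    (2 / Real.pi) ^ p * τ ^ (1 - p) / (p - 1)

/-- TAN: `S_TV → S_TC → S_TM → S_TAN`. Proof. `ψ = fT τ`, `R = RT γ τ`. `lev ψ R` is the image of the uniform law under
`φ ↦ R ψ φ`; by TC (for `a ↦ f (γ a)`) the difference of the integrals is `∫_{(0,1]} (f (R ψ φ) - f (γ tan (π(φ - 1/2)))) dφ`, which vanishes for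
`φ ∈ [τ/2, 1-τ/2]` (TV), so it is `≤ 2 F τ` in absolute value. Moment: `∫_{(0,1]} |R ψ|^p ≤ γ^p (TM) + τ R^p`, `R ≤ 2γ/(πτ)`: total
`≤ γ^p τ^{1-p} (2/π)^p (1/(p-1) + 1) = γ^p τ^{1-p} (2/π)^p p/(p-1) ≤ 2 γ^p τ^{1-p}/(p-1)` (`p ≤ 2`, `(2/π)^p ≤ 1`). -/
def J_TAN : Prop := S_TV → S_TC → S_TM → S_TAN

/-- LEVA: the first level with given parameters. Proof. `B = Bs ((lev ψ R).conv ρ') (cayx x) s`, `B₀ = Bs ρ' (cayx (x - iγ)) s`. For fixed `b`,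
`cayx x (a + b) = cayx (x + b) a`; the hypothesis with `f a = cayx (x + b) a / (1 - cayx (x + b) a * s)`, `F = 1/η`
(`|cayx| ≤ 1` as `Im x < 0` (`S_CX`), `‖s‖ ≤ 1 - η`) and CAUI: `‖∫ f d lev - cayx (x - iγ) b/(1 - cayx (x - iγ) b s)‖ ≤ 2τ/η`
(`cayx (x + b - iγ) 0 = cayx (x - iγ) b`). Integrate over `b` (Fubini for `conv`, everything is bounded): `‖B - B₀‖ ≤ 2τ/η`.
`‖cayx (x - iγ) b‖ ≤ q₀ = √(1 - 4γ/(D+3)²)` for `|b| ≤ 1`: `w = x - iγ + b`, `y = - Im w ≥ γ`, `|w - i| ≤ D + 3`,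
`|w + i|² = |w - i|² - 4 y`, so `|cayx|² = 1 - 4y/|w - i|²`. SC1 (law `ρ'`, `q₀ < 1`): `U₀ = B₀/(1 + s B₀) = Us ρ' (cayx (x - iγ)) s`, `‖U₀‖ ≤ q₀`.
SC1 for the law `(lev ψ R).conv ρ'` and `q = 1` (`1 * ‖s‖ < 1`): the same relations for `U`, `B`. From `U/(1 - U s) = B`:
`1 + s B = 1/(1 - U s)`, so `|1 + s B| ≥ 1/2`, also `|1 + s B₀| ≥ 1/2`. `U - U₀ = (B - B₀)/((1 + s B)(1 + s B₀))`, so
`‖U‖ ≤ q₀ + 4 · 2τ/η`. -/
def S_LEVA : Prop := ∀ (γ τ η D R : ℝ) (ψ : C(UnitAddCircle, ℝ)), IsLv ψ → 0 < R → 0 < γ → γ ≤ 1 → 0 < τ → 0 < η →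
  η < 1 → 0 ≤ D →
  (∀ (f : ℝ → ℂ) (F : ℝ), Measurable f → (∀ a, ‖f a‖ ≤ F) →
    ‖∫ a, f a ∂(lev ψ R) - ∫ a, f (γ * a) ∂(ProbabilityTheory.cauchyMeasure 0 1)‖ ≤ 2 * τ * F) →
  ∀ (ρ' : Measure ℝ) [IsProbabilityMeasure ρ'], ρ' (Set.Icc (-1) 1)ᶜ = 0 →
    ∀ x s : ℂ, ‖x‖ ≤ D → x.im < 0 → ‖s‖ ≤ 1 - η →
      ‖Us ((lev ψ R).conv ρ') (cayx x) s‖ ≤ Real.sqrt (1 - 4 * γ / (D + 3) ^ 2) + 8 * τ / η

/-- the job LEVA -/
def J_LEVA : Prop := S_SC1 → S_CX → S_CAUI → S_ATM → S_LEVA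

/-- LEV0: `S_TAN → S_LEVA → S_LEV0`. Proof. `D' = max D 0`, `c₁ = 1/(D' + 3)² ≤ 1/9`, `0 < γ ≤ 1` to be chosen,
`q₀ = √(1 - 4 c₁ γ) ≤ 1 - 2 c₁ γ`, `q = 1 - c₁ γ`, `η = c₁ γ κ / 8`, `τ = η c₁ γ / 8 = c₁² γ² κ / 64`. Then
`1 - q² = 2 c₁ γ - (c₁ γ)² ≥ c₁ γ`, so `η ≤ (1 - q²) κ / 8`, `η < 1`, `τ ≤ 1/2`, and `q₀ + 8τ/η ≤ 1 - 2 c₁ γ + c₁ γ = q`. `ψ, R` from TAN. Moment:
`2 γ^p τ^{1-p}/(p-1) = (2/(p-1)) (64/(c₁² κ))^{p-1} γ^{2-p} ≤ ε` for `γ` small (`p < 2`; `γ^{2-p} → 0` as `γ → 0+`). -/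
def J_LEV0 : Prop := S_TAN → S_LEVA → S_LEV0

/-- GAPC: `S_LEV0 → S_ATM → S_CX → S_UUC → S_PSI → S_FIX → S_GAPC`. Proof. `ψ, R, η, q` from LEV0 (for `max D 0`). Given `ν, d, K, z, ρ'`:
`ρ = (lev ψ R).conv ρ'` is a probability measure with support in `[-(1+R), 1+R]` (ATM with `C = 1`). `w = wz K z`,
`w k a = cayx (K k - z) a`, `‖K k - z‖ ≤ D`, `Im (K k - z) = - Im z < 0`. CX (3) with `η = Im z`: `q_z < 1` with `‖w k a‖ ≤ q_z`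
for `|a| ≤ 1 + R`; CX (4): `w` continuous. FIX (with `vr ν ≥ κ > 0`, `q_z`) and `Z = {s | ‖s‖ ≤ 1 - η}` (closed,
`0 ∈ Z`): for `s ∈ Z`: `UU ρ w s k = Us ρ (w k) (s k)` (UUC with `q = 1`, `1 * ‖s‖ < 1`), of norm `≤ q` by LEV0; so `‖UU ρ w s‖ ≤ q`
and PSI (`m₁ = m₂ = UU ρ w s`) gives `‖psi k‖² ≤ 1 - (1 - q²) vr ν/4 ≤ 1 - (1-q²) κ/4 ≤ (1 - (1-q²)κ/8)²`, so `‖psi‖ ≤ 1 - η`. So the
fixed point is in `Z`. -/
def J_GAPC : Prop := S_LEV0 → S_ATM → S_CX → S_UUC → S_PSI → S_FIX → S_GAPC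

/-- EQD: `S_AVG0 → S_EQD`. Proof. `S_AVG0` with `F (k, φ) = h φ`, `x = 0` (`mFourierCoeff f 0 = ∫ f`), real parts. -/
def J_EQD : Prop := S_AVG0 → S_EQD

/-- VRS: `S_VRS`. Proof. `vr ν = 1 - |∫ cay|² = (1/2) ∫∫ |cay x - cay y|² dν dν` (`|cay| = 1`) and
`|cay x - cay y|² = 4 (x - y)²/((1 + x²)(1 + y²))`. For `0 < α ≤ 1`: `1 + α² x² ≤ 1 + x²`, so the integrand for `(α x, α y)` is
`≥ α²` times the one for `(x, y)`; for `α ≥ 1`: `1 + α² x² ≤ α² (1 + x²)`: `≥ α² / α⁴ = 1/α²` times. -/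
def J_VRS : Prop := S_VRS

/-- CH5: the chain for one class of laws. All steps of the proof are in `Pool/Agent/W792/WA/G11.lean` (`LvK`, `Pr3.step`),
`G12.lean` (`exists_f3`) and `G10.lean` (`CEK`, `CEK.concl`); here it is simpler (one class `𝓧`, no `J`, no entries).
Proof. Invariant of stage `n` for `a : C(ℝ, ℝ) × ℝ`: `∀ X ∈ 𝓧, GapK (qlaw X) (ρ n) (kg K a.1) (σ (1/2 + 1/2^(n+1)))`, `0 < a.2`,
`∃ q, 0 ≤ q < 1, a.2 ≤ (1 - q²)/8, ∀ X ∈ 𝓧, CtrK (qlaw X) (ρ n) (kg K a.1) q` (from `S_UNI2`). Relation of two stages: `∃ M, b.1 = nx ψ a.1 (l n) M`,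
`b.2 ≤ a.2`, and the estimate of `Rel3` for all `X ∈ 𝓧` with `a.2/(64 · 8^n)`. Start: `a = (0, (1-q²)/8)` (`kg_zero`; `1/2 + 1/2 = 1`).
Step: `S_STEPL` (`ρ n = (lev ψ (l n)).conv (ρ (n+1))`) with `e = min (a.2/(64 · 8^n)) (σ/2^(n+2))` and the gap `σ/2`, and the new gap as in
`Pr3.step`. Then `exists_seq` (`G1.lean`), `LvK` gives `fI`, `|fI| ≤ T 0`, and for every `X ∈ 𝓧` the structure `CEK (qlaw X) K` with gap `σ/2`;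
`CEK.concl` is `MestK (kg K fI) (qlaw X)`, `kg K f = K + gK f d`. -/
def S_CH5 : Prop :=
  ∀ (d : ℕ) (ψ : C(UnitAddCircle, ℝ)) (K : C(UnitAddTorus (Fin d), ℝ)) (𝓧 : Set MX) (σ : ℝ)
    (l T : ℕ → ℝ) (ρ : ℕ → Measure ℝ), 0 < d → IsLv ψ → (∀ X ∈ 𝓧, 0 < vr (qlaw X)) → TB 𝓧 →
    (∀ n, 0 < l n) → (∀ n, 0 ≤ T n) → (∀ n, l n + T (n + 1) ≤ T n) → Tendsto T atTop (𝓝 0) →
    (∀ n, IsProbabilityMeasure (ρ n)) → (∀ n, ρ n = (lev ψ (l n)).conv (ρ (n + 1))) →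
    (∀ n, ρ n (Set.Icc (-(T n)) (T n))ᶜ = 0) → (∀ (n : ℕ) (a b : ℝ), ρ n {a, b} < 1) → 0 < σ →
    (∀ X ∈ 𝓧, ∀ z ∈ Zs d, ∀ s, IsFix (qlaw X) (ρ 0) (wz K z) s → ‖s‖ ≤ 1 - σ) →
    ∃ f : C(ℝ, ℝ), (∀ t, |f t| ≤ T 0) ∧ ∀ X ∈ 𝓧, MestK (K + gK f d) (qlaw X)

/-- the job CH5 (import also `Pool.Agent.W792.WA.G12`) -/
def J_CH5 : Prop := S_CX → S_UUC → S_SCL → S_ZF → S_CAY → S_MZP → S_UNI → S_UNI2 → S_STEPL → S_CH5

/-- NPN: from the parts. Proof. `κ' = min κ 1` (if `κ > 1` there is nothing to prove, `vr ≤ 1`). `D = ‖K‖ + 4 d + 1`; `ψ₀, R, η` from GAPC with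
`ε/8`. `ψ` semicircle (`S_SEMI`, it is `IsLv`), `l n = t 2^{-(n+1)}`, `T n = t 2^{-n}`, `t = min 1 (ε/8)`; `ρ` from `S_FUT`.
`𝓧 = {X ∈ Qf | κ' ≤ vr (qlaw X)}` is totally bounded (`S_NETX2`). Stage 0: law `(lev ψ₀ R).conv (ρ 0)`, kinetic energy `K`, gap `η` by GAPC.
`S_STEPL` (with `S_ATM`) with `e = η/2`: for all large `M` the kinetic energy `K' = addL ψ₀ K R M` and the law `ρ 0` have the gap `η/2`
(existence of `s`: `S_UNI2`); take `M` also for EQD with `h = |R ψ₀|^p`, `e = ε/8`. CH5 for `K'`: `f`, `|f| ≤ t`. `g = R ψ₀ (M · /2π) + f`: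
`∫ |g (lap)|^p ≤ 2 (∫ |R ψ₀(M lap/2π)|^p + t^p) ≤ 2 (ε/8 + ε/8 + ε/8) ≤ ε`. For a law `ν` with `vr ν ≥ κ`: `S_QNT2`, `X ∈ Qf` with
`qlaw X = ν`, `MestK`, `S_AEQK` with `lam = 1`. -/
def J_NPN : Prop := S_GAPC → S_STEPL → S_ATM → S_EQD → S_CH5 → S_UNI2 → S_SEMI → S_FUT → S_NETX2 → S_QNT2 →
  S_AEQK → S_NPN

/-- NPFIN: `S_NPN → S_VRS → S_AFF → S_SCA → S_NPFIN`. Proof. `α = 4 d/(b - a)`, `K'' = α • (K - a)`, `κ'' = min (α²) (1/α²) κ`,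
`ε'' = α^p ε`; `g''` from NPN, `g = g''/α`. `K'' + gK g'' d = α • (K + gK g d - a)`, `∫ |g|^p = α^{-p} ∫ |g''|^p ≤ ε`. For `ν` with `vr ν ≥ κ`,
`ν'' = ν.map (α ·)` has `vr ν'' ≥ κ''` (VRS). NPN and `S_SCA`: for almost all `v` (law `Pn ν`) `ACIK (K'' + gK g'' d) 1 (fun y => α * v y) 0 (4 d)`, i.e.
`ACIK (α • (K + gK g d - const a)) (α * 1) v 0 (4 d)` (unfold `Sol`: the potential enters as `lam * v x`; see
`Pool/Agent/W298/WA/Kfin.lean` for the same argument), and `S_AFF` with `m = a`: `a + 0/α = a`, `a + 4 d/α = b`. -/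
def J_NPFIN : Prop := S_NPN → S_VRS → S_AFF → S_SCA → S_NPFIN

end

end Pool.Agent.Q205.WV
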